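import Mathlib

/-!
# Maximality of the associated order in the canonical nonclassical Hopf-Galois structure

Let `L/K` be a Galois extension of `p`-adic fields with group `G` and `p ∤ [L : K]`.  Then the
associated order of `𝔒_L` in `H_λ = L[λ(G)]^G` is a maximal order of `H_λ`.

The proof.  The action identifies `H_λ` with the `K`-linear maps of `L` that commute with `G`.  For
`y ∈ 𝔒_L` and `z` in the inverse different, the map `x ↦ Tr (z x) y` preserves `𝔒_L`, and so does its
average over the conjugates by `G`, because `|G|` is a unit of `𝔒_K`; the average is the action of an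
element `a` of the associated order.  If `h` is in some order that contains the associated order, then
`h a` is integral over `𝔒_K`, so the trace of the action of `h a` on `L` is in `𝔒_K`.  This trace is
`Tr (z h(y))`.  So `h(y)` is in the dual of the inverse different, which is `𝔒_L`.
-/

set_option autoImplicit false

open MonoidAlgebra

namespace Pool.Agent.Results.MP_46c6cb_nt.AssociatedOrderMaximal

/-- The left regular representation `λ : G → Perm(G)`, `λ(g)(h) = g h`. -/
def lam {G : Type*} [Group G] (g : G) : Equiv.Perm G := Equiv.mulLeft g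

/-- The subgroup `N = λ(G)` of `Perm(G)`. -/
def N (G : Type*) [Group G] : Subgroup (Equiv.Perm G) where
  carrier := Set.range lam
  one_mem' := ⟨1, by ext; simp [lam]⟩
  mul_mem' := by
    rintro _ _ ⟨a, rfl⟩ ⟨b, rfl⟩
    exact ⟨a * b, by ext; simp [lam]⟩
  inv_mem' := by
    rintro _ ⟨a, rfl⟩
    exact ⟨a⁻¹, by ext; simp [lam]⟩

section Group

variable {G : Type*} [Group G]

lemma lam_mul (g k : G) : lam (g * k) = lam g * lam k := by ext; simp [lam]

lemma lam_inv (g : G) : lam g⁻¹ = (lam g)⁻¹ := by ext; simp [lam]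

lemma lam_one : lam (1 : G) = 1 := by ext; simp [lam]

lemma conj_mem (g : G) (n : N G) : lam g * n.1 * (lam g)⁻¹ ∈ N G := by
  obtain ⟨n, k, rfl⟩ := n
  exact ⟨g * k * g⁻¹, by rw [lam_mul, lam_mul, lam_inv]⟩

/-- The element `λ(g) n λ(g)⁻¹` of `N`. -/
def conj (g : G) (n : N G) : N G := ⟨lam g * n.1 * (lam g)⁻¹, conj_mem g n⟩

/-- `λ(g)` as an element of `N`. -/
def el (g : G) : N G := ⟨lam g, g, rfl⟩

lemma el_surj (n : N G) : ∃ g, el g = n := by
  obtain ⟨n, k, rfl⟩ := n
  exact ⟨k, rfl⟩

lemma el_inj {g k : G} (h : el g = el k) : g = k := by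
  have h1 : lam g = lam k := congrArg Subtype.val h
  have h2 := congrArg (fun e : Equiv.Perm G => e 1) h1
  simpa [lam] using h2

lemma el_mul (g k : G) : el (g * k) = el g * el k := Subtype.ext (lam_mul g k)

lemma el_inv (g : G) : el (g⁻¹) = (el g)⁻¹ := Subtype.ext (lam_inv g)

lemma el_one : el (1 : G) = 1 := Subtype.ext lam_one

/-- `N` and `G` are isomorphic. -/
noncomputable def eqv : G ≃ N G :=
  Equiv.ofBijective el ⟨fun _ _ h => el_inj h, fun n => el_surj n⟩

@[simp] lemma eqv_apply (g : G) : eqv g = el g := rfl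

lemma conj_el (g k : G) : conj g (el k) = el (g * k * g⁻¹) := by
  apply Subtype.ext
  change lam g * lam k * (lam g)⁻¹ = lam (g * k * g⁻¹)
  rw [lam_mul, lam_mul, lam_inv]

end Group

section HopfAlgebra

variable {K G L : Type*} [Field K] [Group G] [Field L] [MulSemiringAction G L]

/-- The action of `g ∈ G` on `L[N]`: `g · ∑ c_n n = ∑ g(c_n) λ(g) n λ(g)⁻¹`. -/
noncomputable def act (g : G) (a : MonoidAlgebra L (N G)) : MonoidAlgebra L (N G) :=
  a.coeff.sum fun n c => single (conj g n) (g • c)

/-- The action of `L[N]` on `L`: `(∑ c_n n) · x = ∑ c_n (n⁻¹(1))(x)`. -/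
noncomputable def dot (a : MonoidAlgebra L (N G)) (x : L) : L :=
  a.coeff.sum fun n c => c * ((n.1⁻¹ : Equiv.Perm G) 1) • x

lemma act_coeff (g k : G) (a : MonoidAlgebra L (N G)) :
    (act g a).coeff (el (g * k * g⁻¹)) = g • (a.coeff (el k)) := by
  classical
  unfold act
  rw [Finsupp.sum, coeff_sum, Finsupp.finsetSum_apply]
  rw [Finset.sum_eq_single (el k)]
  · rw [coeff_single, conj_el, Finsupp.single_eq_same]
  · intro b _ hb
    rw [coeff_single, Finsupp.single_eq_of_ne]
    intro h
    obtain ⟨b, rfl⟩ := el_surj b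
    rw [conj_el] at h
    apply hb
    have := el_inj h
    congr 1
    have h2 : g * k = g * b := mul_right_cancel this
    exact (mul_left_cancel h2).symm
  · intro h
    rw [Finsupp.notMem_support_iff] at h
    rw [h, smul_zero, single_zero, coeff_zero, Finsupp.zero_apply]

lemma act_eq_iff (a : MonoidAlgebra L (N G)) : (∀ g : G, act g a = a) ↔
    ∀ g k : G, a.coeff (el (g * k * g⁻¹)) = g • (a.coeff (el k)) := by
  constructor
  · intro h g k
    rw [← act_coeff, h g]
  · intro h g
    apply coeff_injective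
    ext n
    obtain ⟨n, rfl⟩ := el_surj n
    have h1 := act_coeff g (g⁻¹ * n * g) a
    have h2 := h g (g⁻¹ * n * g)
    have e : g * (g⁻¹ * n * g) * g⁻¹ = n := by group
    rw [e] at h1 h2
    rw [h1, h2]

lemma act_single (g k : G) (c : L) :
    act g (single (el k) c) = single (el (g * k * g⁻¹)) (g • c) := by
  unfold act
  rw [coeff_single, Finsupp.sum_single_index, conj_el]
  rw [smul_zero, single_zero]

lemma act_add (g : G) (a b : MonoidAlgebra L (N G)) :
    act g (a + b) = act g a + act g b := by
  unfold act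
  rw [coeff_add, Finsupp.sum_add_index']
  · intro n
    rw [smul_zero, single_zero]
  · intro n c d
    rw [smul_add, single_add]

lemma act_zero (g : G) : act g (0 : MonoidAlgebra L (N G)) = 0 := by
  unfold act
  simp

lemma act_mul (g : G) (a b : MonoidAlgebra L (N G)) :
    act g (a * b) = act g a * act g b := by
  induction a using MonoidAlgebra.induction_linear with
  | zero => rw [zero_mul, act_zero, zero_mul]
  | add a a' ha ha' => rw [add_mul, act_add, act_add, ha, ha', add_mul]
  | single n c =>
    induction b using MonoidAlgebra.induction_linear with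
    | zero => rw [mul_zero, act_zero, mul_zero]
    | add b b' hb hb' => rw [mul_add, act_add, act_add, hb, hb', mul_add]
    | single m d =>
      obtain ⟨n, rfl⟩ := el_surj n
      obtain ⟨m, rfl⟩ := el_surj m
      rw [single_mul_single, act_single, act_single, single_mul_single, ← el_mul, act_single,
        ← el_mul, smul_mul']
      congr 2
      simp [mul_assoc]

variable [Algebra K L] [IsGaloisGroup G K L]

lemma act_algebraMap (r : K) (g : G) : act g (algebraMap K (MonoidAlgebra L (N G)) r) =
    algebraMap K (MonoidAlgebra L (N G)) r := by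
  have e : (algebraMap K (MonoidAlgebra L (N G))) r =
      single (el (1 : G)) (algebraMap K L r) := by
    rw [el_one]
    rfl
  rw [e, act_single, smul_algebraMap]
  simp

variable (K G L)

/-- The `K`-algebra `H_λ = L[N]^G`, as a subalgebra of `MonoidAlgebra L N`. -/
noncomputable def H0 : Subalgebra K (MonoidAlgebra L (N G)) where
  carrier := {a | ∀ g : G, act g a = a}
  mul_mem' := by
    intro a b ha hb g
    rw [act_mul, ha g, hb g]
  add_mem' := by
    intro a b ha hb g
    rw [act_add, ha g, hb g]
  algebraMap_mem' := fun r g => act_algebraMap r g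

variable {K G L}

lemma mem_H0_iff (a : MonoidAlgebra L (N G)) : a ∈ H0 K G L ↔
    ∀ g k : G, a.coeff (el (g * k * g⁻¹)) = g • (a.coeff (el k)) :=
  act_eq_iff a

variable [Fintype G]

lemma dot_eq (a : MonoidAlgebra L (N G)) (x : L) :
    dot a x = ∑ k : G, a.coeff (el k) * k⁻¹ • x := by
  have : Fintype (N G) := Fintype.ofEquiv _ eqv
  unfold dot
  rw [Finsupp.sum_fintype]
  · rw [← Equiv.sum_comp eqv]
    refine Finset.sum_congr rfl fun k _ => ?_
    simp [el, lam]
  · intro n
    rw [zero_mul]

lemma dot_add_left (a b : MonoidAlgebra L (N G)) (x : L) : dot (a + b) x = dot a x + dot b x := by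
  rw [dot_eq, dot_eq, dot_eq, ← Finset.sum_add_distrib]
  refine Finset.sum_congr rfl fun k _ => ?_
  rw [coeff_add, Finsupp.add_apply, add_mul]

lemma dot_zero_left (x : L) : dot (0 : MonoidAlgebra L (N G)) x = 0 := by
  rw [dot_eq]
  simp

omit [IsGaloisGroup G K L] in
lemma dot_smul_left (c : K) (a : MonoidAlgebra L (N G)) (x : L) : dot (c • a) x = c • dot a x := by
  rw [dot_eq, dot_eq, Finset.smul_sum]
  refine Finset.sum_congr rfl fun k _ => ?_
  rw [coeff_smul, Finsupp.smul_apply, smul_mul_assoc]

lemma dot_add (a : MonoidAlgebra L (N G)) (x y : L) : dot a (x + y) = dot a x + dot a y := by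
  rw [dot_eq, dot_eq, dot_eq, ← Finset.sum_add_distrib]
  refine Finset.sum_congr rfl fun k _ => ?_
  rw [smul_add, mul_add]

lemma dot_smul (c : K) (a : MonoidAlgebra L (N G)) (x : L) : dot a (c • x) = c • dot a x := by
  rw [dot_eq, dot_eq, Finset.smul_sum]
  refine Finset.sum_congr rfl fun k _ => ?_
  rw [smul_comm k⁻¹ c x, mul_smul_comm]

lemma dot_one (x : L) : dot (1 : MonoidAlgebra L (N G)) x = x := by
  have h1 : (1 : MonoidAlgebra L (N G)) = single (el 1) 1 := by
    rw [el_one]
    rfl
  rw [h1, dot_eq, Finset.sum_eq_single 1]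
  · simp
  · intro b _ hb
    rw [coeff_single, Finsupp.single_eq_of_ne, zero_mul]
    intro h
    exact hb (el_inj h)
  · intro h
    exact absurd (Finset.mem_univ _) h

lemma dot_comm {a : MonoidAlgebra L (N G)} (ha : a ∈ H0 K G L) (g : G) (x : L) :
    dot a (g • x) = g • (dot a x) := by
  rw [mem_H0_iff] at ha
  rw [dot_eq, dot_eq, Finset.smul_sum, ← Equiv.sum_comp (MulAut.conj g).toEquiv]
  refine Finset.sum_congr rfl fun k _ => ?_
  have e : (MulAut.conj g).toEquiv k = g * k * g⁻¹ := rfl
  rw [e, ha g k, smul_mul']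
  congr 1
  rw [smul_smul, smul_smul]
  congr 1
  group

lemma dot_single_mul (g : G) (c : L) (b : MonoidAlgebra L (N G)) (hb : b ∈ H0 K G L) (x : L) :
    dot (single (el g) c * b) x = dot (single (el g) c) (dot b x) := by
  rw [mem_H0_iff] at hb
  rw [dot_eq (single (el g) c), Finset.sum_eq_single g]
  · rw [coeff_single, Finsupp.single_eq_same, dot_eq, dot_eq, Finset.smul_sum, Finset.mul_sum,
      ← Equiv.sum_comp (Equiv.mulLeft g)]
    rw [← Equiv.sum_comp (MulAut.conj g).toEquiv
      (fun k => c * g⁻¹ • (b.coeff (el k) * k⁻¹ • x))]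
    refine Finset.sum_congr rfl fun k _ => ?_
    have e : (MulAut.conj g).toEquiv k = g * k * g⁻¹ := rfl
    have e1 : Equiv.mulLeft g k = g * k := rfl
    rw [e, hb g k, e1, smul_mul', coeff_single_mul_apply, ← el_inv, ← el_mul, inv_mul_cancel_left,
      inv_smul_smul, smul_smul, mul_assoc]
    congr 3
    group
  · intro k _ hk
    rw [coeff_single, Finsupp.single_eq_of_ne, zero_mul]
    intro h
    exact hk (el_inj h)
  · intro h
    exact absurd (Finset.mem_univ _) h

lemma dot_mul (a : MonoidAlgebra L (N G)) {b : MonoidAlgebra L (N G)} (hb : b ∈ H0 K G L) (x : L) :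
    dot (a * b) x = dot a (dot b x) := by
  induction a using MonoidAlgebra.induction_linear with
  | zero => rw [zero_mul, dot_zero_left, dot_zero_left]
  | add a a' ha ha' => rw [add_mul, dot_add_left, dot_add_left, ha, ha']
  | single n c =>
    obtain ⟨n, rfl⟩ := el_surj n
    exact dot_single_mul n c b hb x

lemma dot_inj [hf : FaithfulSMul G L] {a : MonoidAlgebra L (N G)} (h : ∀ x, dot a x = 0) :
    a = 0 := by
  have h1 : LinearIndependent L (fun g : G => (fun x : L => g • x)) :=
    LinearIndependent.comp (ι' := G) (linearIndependent_monoidHom L L)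
      (fun g => (MulSemiringAction.toRingHom G L g : L →* L))
      (fun x y h => by
        refine hf.eq_of_smul_eq_smul fun a => ?_
        exact DFunLike.ext_iff.1 h a)
  rw [Fintype.linearIndependent_iff] at h1
  have h2 := h1 (fun k => a.coeff (el k⁻¹)) (by
    funext x
    rw [Finset.sum_apply, Pi.zero_apply, ← h x, dot_eq, ← Equiv.sum_comp (Equiv.inv G)]
    refine Finset.sum_congr rfl fun k _ => ?_
    simp)
  apply coeff_injective
  ext n
  obtain ⟨n, rfl⟩ := el_surj n
  have h3 := h2 n⁻¹
  rw [inv_inv] at h3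
  rw [h3, coeff_zero, Finsupp.zero_apply]

lemma dot_ext [FaithfulSMul G L] {a b : MonoidAlgebra L (N G)} (h : ∀ x, dot a x = dot b x) :
    a = b := by
  rw [← sub_eq_zero]
  refine dot_inj fun x => ?_
  have h1 := dot_add_left (a - b) b x
  rw [sub_add_cancel, h x] at h1
  exact left_eq_add.1 (by rw [add_comm] at h1; exact h1)

/-- The action of `H_λ` on `L`. -/
noncomputable def rep : H0 K G L →ₐ[K] Module.End K L :=
  AlgHom.ofLinearMap
    { toFun := fun a =>
        { toFun := fun x => dot a.1 x
          map_add' := dot_add a.1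
          map_smul' := fun c x => dot_smul c a.1 x }
      map_add' := fun a b => LinearMap.ext fun x => dot_add_left a.1 b.1 x
      map_smul' := fun c a => LinearMap.ext fun x => dot_smul_left c a.1 x }
    (LinearMap.ext fun x => dot_one x)
    (fun a b => LinearMap.ext fun x => dot_mul a.1 b.2 x)

lemma rep_apply (a : H0 K G L) (x : L) : rep a x = dot a.1 x := rfl

end HopfAlgebra

open scoped nonZeroDivisors TensorProduct

theorem dualLemma {K L : Type*} [Field K] [Field L] [Algebra K L] [FiniteDimensional K L]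
    [Algebra.IsSeparable K L] (R : Subring K) [IsDedekindDomain R] [IsFractionRing R K]
    (v : L) (hv : ∀ z : L, (∀ b : L, IsIntegral R b → Algebra.trace K L (z * b) ∈ R) →
      Algebra.trace K L (z * v) ∈ R) : IsIntegral R v := by
  let B := integralClosure R L
  have : IsDedekindDomain B := integralClosure.isDedekindDomain R K L
  have : IsFractionRing B L := integralClosure.isFractionRing_of_finite_extension K L
  have h0 : (1 : FractionalIdeal B⁰ L) ≠ 0 := one_ne_zero
  have h1 : v ∈ (FractionalIdeal.dual R K (FractionalIdeal.dual R K (1 : FractionalIdeal B⁰ L))) := by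
    rw [FractionalIdeal.mem_dual (by rw [FractionalIdeal.dual_ne_zero_iff]; exact h0)]
    intro z hz
    rw [FractionalIdeal.mem_dual h0] at hz
    have := hv z (fun b hb => by
      have h2 := hz b ((FractionalIdeal.mem_one_iff _).2 ⟨⟨b, hb⟩, rfl⟩)
      rw [Algebra.traceForm_apply] at h2
      obtain ⟨r, hr⟩ := h2
      rw [← hr]
      exact r.2)
    rw [Algebra.traceForm_apply, mul_comm]
    exact ⟨⟨_, this⟩, rfl⟩
  rw [FractionalIdeal.dual_dual, FractionalIdeal.mem_one_iff] at h1
  obtain ⟨b, rfl⟩ := h1
  exact b.2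

/-- The trace of an integral endomorphism. -/
theorem trace_integral {K V : Type*} [Field K] [AddCommGroup V] [Module K V] [FiniteDimensional K V]
    (R : Subring K) [IsIntegrallyClosed R] [IsFractionRing R K] (f : Module.End K V)
    (hf : IsIntegral R f) : LinearMap.trace K V f ∈ R := by
  have key : IsIntegral R (LinearMap.trace K V f) := by
    let φ := algebraMap K (AlgebraicClosure K)
    let F : Module.End (AlgebraicClosure K) (AlgebraicClosure K ⊗[K] V) :=
      f.baseChange (AlgebraicClosure K)
    have h1 : φ (LinearMap.trace K V f) = F.charpoly.roots.sum := by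
      rw [← Module.End.trace_eq_sum_roots_charpoly_of_splits (IsAlgClosed.splits _),
        LinearMap.trace_baseChange]
    rw [← isIntegral_algebraMap_iff (A := K) (B := AlgebraicClosure K) φ.injective]
    change IsIntegral R (φ (LinearMap.trace K V f))
    rw [h1]
    refine IsIntegral.multiset_sum ?_
    intro y hy
    obtain ⟨q, hq, hq2⟩ := hf
    refine ⟨q, hq, ?_⟩
    have hy2 : F.HasEigenvalue y := by
      rw [Module.End.hasEigenvalue_iff_isRoot_charpoly]
      exact Polynomial.isRoot_of_mem_roots hy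
    obtain ⟨v, hv⟩ := hy2.exists_hasEigenvector
    have h2 := Module.End.aeval_apply_of_hasEigenvector (p := q.map (algebraMap R (AlgebraicClosure K)))
      hv
    have h3 : Polynomial.aeval F (q.map (algebraMap R (AlgebraicClosure K))) = 0 := by
      have h5 : Polynomial.aeval f (q.map (algebraMap R K)) = 0 := by
        rw [Polynomial.aeval_map_algebraMap]
        exact hq2
      have h6 := congrArg (Module.End.baseChangeHom K (AlgebraicClosure K) V) h5
      rw [map_zero, ← Polynomial.aeval_algHom_apply] at h6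
      have h7 : (algebraMap R (AlgebraicClosure K)) =
        (algebraMap K (AlgebraicClosure K)).comp (algebraMap R K) := rfl
      rw [h7, ← Polynomial.map_map, Polynomial.aeval_map_algebraMap]
      exact h6
    rw [h3, LinearMap.zero_apply] at h2
    have h4 := (smul_eq_zero.1 h2.symm).resolve_right hv.2
    rw [Polynomial.eval_map] at h4
    exact h4
  obtain ⟨r, hr⟩ := IsIntegrallyClosed.isIntegral_iff.1 key
  rw [← hr]
  exact r.2


/-- The trace is the sum of the conjugates. -/
theorem trace_eq_sum {K G L : Type*} [Field K] [Field L] [Algebra K L] [Group G] [Fintype G]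
    [MulSemiringAction G L] [IsGaloisGroup G K L] (x : L) :
    algebraMap K L (Algebra.trace K L x) = ∑ g : G, g • x := by
  have hsep : IsGalois K L := IsGaloisGroup.isGalois G K L
  have hfd : FiniteDimensional K L := IsGaloisGroup.finiteDimensional G K L
  rw [trace_eq_sum_automorphisms, ← Equiv.sum_comp (IsGaloisGroup.mulEquivAlgEquiv G K L).toEquiv]
  rfl

section General

variable {K G L : Type*} [Field K] [Field L] [Algebra K L] [Group G] [Fintype G]
  [MulSemiringAction G L] [IsGaloisGroup G K L] [FiniteDimensional K L]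
  (R : Subring K) [IsDedekindDomain R] [IsFractionRing R K]

theorem isOrder_of (Λ : Subalgebra R (H0 K G L))
    (hΛ : ∀ h : H0 K G L, h ∈ Λ ↔ ∀ x : L, IsIntegral R x → IsIntegral R (dot h.1 x)) :
    (Subalgebra.toSubmodule Λ).FG ∧ ∀ x : H0 K G L, ∃ r ∈ R, r ≠ 0 ∧ r • x ∈ Λ := by
  classical
  have hf : FaithfulSMul G L := IsGaloisGroup.faithful K
  have hsep : IsGalois K L := IsGaloisGroup.isGalois G K L
  have hfin : Module.Finite R (integralClosure R L) :=
    IsIntegralClosure.finite R K L (integralClosure R L)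
  obtain ⟨n, b, hb⟩ := Module.Finite.exists_fin (R := R) (M := integralClosure R L)
  have hspan : ∀ x : L, IsIntegral R x → ∃ c : Fin n → R, x = ∑ i, ((c i : K)) • (b i : L) := by
    intro x hx
    have h1 : (⟨x, hx⟩ : integralClosure R L) ∈ Submodule.span R (Set.range b) := by
      rw [hb]; trivial
    rw [Submodule.mem_span_range_iff_exists_fun] at h1
    obtain ⟨c, hc⟩ := h1
    refine ⟨c, ?_⟩
    have h2 := congrArg (fun y : integralClosure R L => (y : L)) hc
    simp only [AddSubmonoidClass.coe_finsetSum] at h2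
    rw [← h2]
    rfl
  have hdot : ∀ (h : H0 K G L) (x : L) (c : Fin n → R), x = ∑ i, ((c i : K)) • (b i : L) →
      dot h.1 x = ∑ i, ((c i : K)) • dot h.1 (b i : L) := by
    intro h x c hx
    rw [hx, ← rep_apply, map_sum]
    refine Finset.sum_congr rfl fun i _ => ?_
    rw [map_smul, rep_apply]
  constructor
  · let Φ : Λ →ₗ[R] (Fin n → integralClosure R L) :=
      { toFun := fun h i => ⟨dot h.1.1 (b i : L), (hΛ h.1).1 h.2 _ (b i).2⟩
        map_add' := by
          intro h h'
          funext i
          exact Subtype.ext (dot_add_left _ _ _)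
        map_smul' := by
          intro c h
          funext i
          exact Subtype.ext (dot_smul_left (c : K) _ _) }
    have hΦ : Function.Injective Φ := by
      intro h h' hh
      have h1 : ∀ i, dot h.1.1 (b i : L) = dot h'.1.1 (b i : L) := fun i =>
        congrArg (fun f : Fin n → integralClosure R L => (f i : L)) hh
      apply Subtype.ext
      apply Subtype.ext
      refine dot_ext fun x => ?_
      obtain ⟨r, hr, hr2⟩ := exists_integral_multiples R K {x}
      have h2 := hr2 x (Finset.mem_singleton_self x)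
      obtain ⟨c, hc⟩ := hspan _ h2
      have h3 := hdot h.1 _ c hc
      simp only [h1] at h3
      rw [← hdot h'.1 _ c hc] at h3
      have h4 : dot h.1.1 (r • x) = (r : K) • dot h.1.1 x := dot_smul (r : K) _ _
      have h5 : dot h'.1.1 (r • x) = (r : K) • dot h'.1.1 x := dot_smul (r : K) _ _
      rw [h4, h5] at h3
      have h6 : (r : K) ≠ 0 := fun h => hr (Subtype.ext h)
      exact smul_right_injective L h6 h3
    have h5 : Module.Finite R Λ := Module.Finite.of_injective Φ hΦ
    exact Module.Finite.iff_fg.1 h5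
  · intro h
    obtain ⟨r, hr, hr2⟩ := exists_integral_multiples R K
      (Finset.univ.image fun i => dot h.1 (b i : L))
    have h1 : r • h ∈ Λ := by
      rw [hΛ]
      intro x hx
      obtain ⟨c, hc⟩ := hspan x hx
      have h2 : dot (r • h).1 x = (r : K) • dot h.1 x := dot_smul_left (r : K) _ _
      rw [h2, hdot h x c hc, Finset.smul_sum]
      refine IsIntegral.sum _ fun i _ => ?_
      rw [smul_comm]
      have h3 := hr2 _ (Finset.mem_image_of_mem (fun i => dot h.1 (b i : L)) (Finset.mem_univ i))
      exact IsIntegral.smul (c i) h3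
    exact ⟨r, r.2, fun h => hr (Subtype.ext h), h1⟩

theorem general (hn : ∃ c ∈ R, c * (Nat.card G : K) = 1)
    (Λ : Subring (H0 K G L))
    (hle : ∀ h : H0 K G L, (∀ x : L, IsIntegral R x → IsIntegral R (dot h.1 x)) → h ∈ Λ)
    (hΛ : ∀ h ∈ Λ, IsIntegral R h) (h : H0 K G L) (hh : h ∈ Λ) :
    ∀ x : L, IsIntegral R x → IsIntegral R (dot h.1 x) := by
  classical
  have hsep : IsGalois K L := IsGaloisGroup.isGalois G K L
  obtain ⟨c, hcR, hc⟩ := hn
  intro y hy
  refine dualLemma R _ fun z hz => ?_
  -- the element `a` of `Λ`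
  let cf : G → L := fun s => algebraMap K L c * ∑ g : G, g • y * (s⁻¹ * g) • z
  let a0 : MonoidAlgebra L (N G) :=
    .ofCoeff (Finsupp.equivFunOnFinite.symm fun n => cf (eqv.symm n))
  have ha0 : ∀ s, a0.coeff (el s) = cf s := by
    intro s
    change cf (eqv.symm (eqv s)) = cf s
    rw [Equiv.symm_apply_apply]
  have haH : a0 ∈ H0 K G L := by
    rw [mem_H0_iff]
    intro g k
    rw [ha0, ha0]
    change algebraMap K L c * _ = g • (algebraMap K L c * _)
    rw [smul_mul', smul_algebraMap, Finset.smul_sum, ← Equiv.sum_comp (Equiv.mulLeft g)]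
    congr 1
    refine Finset.sum_congr rfl fun s _ => ?_
    have e1 : Equiv.mulLeft g s = g * s := rfl
    have e2 : (g * k * g⁻¹)⁻¹ * (g * s) = g * (k⁻¹ * s) := by group
    rw [smul_mul', e1, e2, mul_smul, mul_smul g (k⁻¹ * s)]
  have hdot : ∀ x, dot a0 x = ∑ g : G, (c * Algebra.trace K L (z * g⁻¹ • x)) • g • y := by
    intro x
    rw [dot_eq]
    have h1 : ∀ k : G, a0.coeff (el k) * k⁻¹ • x =
        ∑ g : G, algebraMap K L c * (g • y * (k⁻¹ * g) • z * k⁻¹ • x) := by
      intro k
      rw [ha0]
      change algebraMap K L c * _ * _ = _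
      rw [mul_assoc, Finset.sum_mul, Finset.mul_sum]
    simp only [h1]
    rw [Finset.sum_comm]
    refine Finset.sum_congr rfl fun g _ => ?_
    rw [Algebra.smul_def, map_mul, trace_eq_sum (G := G), ← Finset.mul_sum, mul_assoc]
    congr 1
    rw [Finset.sum_mul, ← Equiv.sum_comp ((Equiv.inv _).trans (Equiv.mulLeft g))]
    refine Finset.sum_congr rfl fun k _ => ?_
    have e1 : ((Equiv.inv _).trans (Equiv.mulLeft g)) k = g * k⁻¹ := rfl
    have e2 : (g * k⁻¹)⁻¹ = k * g⁻¹ := by group
    rw [e1, e2, smul_mul', inv_mul_cancel_right, mul_smul]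
    ring
  let a : H0 K G L := ⟨a0, haH⟩
  have hsm : ∀ (g : G) (x : L), IsIntegral R x → IsIntegral R (g • x) := fun g x hx =>
    hx.map (MulSemiringAction.toAlgEquiv K L g : L →ₐ[K] L)
  have haΛ : a ∈ Λ := by
    refine hle _ fun x hx => ?_
    change IsIntegral R (dot a0 x)
    rw [hdot]
    refine IsIntegral.sum _ fun g _ => ?_
    have h1 : c * Algebra.trace K L (z * g⁻¹ • x) ∈ R :=
      R.mul_mem hcR (hz _ (hsm g⁻¹ x hx))
    exact IsIntegral.smul (⟨_, h1⟩ : R) (hsm g y hy)
  have hint : IsIntegral R (h * a) := hΛ _ (Λ.mul_mem hh haΛ)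
  have hint2 : IsIntegral R (rep (h * a)) :=
    hint.map ((rep : H0 K G L →ₐ[K] Module.End K L).restrictScalars R)
  have ht := trace_integral R _ hint2
  have ht2 : LinearMap.trace K L (rep (h * a)) = Algebra.trace K L (z * dot h.1 y) := by
    have h1 : rep (h * a) = ∑ g : G, c • (LinearMap.smulRight
        ((Algebra.trace K L).comp ((LinearMap.mulLeft K z).comp
          (MulSemiringAction.toAlgEquiv K L g⁻¹).toLinearMap))
        (g • (dot h.1 y))) := by
      refine LinearMap.ext fun x => ?_
      rw [map_mul, Module.End.mul_apply, rep_apply a, LinearMap.sum_apply]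
      change rep h (dot a0 x) = _
      rw [hdot, map_sum]
      refine Finset.sum_congr rfl fun g _ => ?_
      rw [map_smul, rep_apply, dot_comm h.2, LinearMap.smul_apply, LinearMap.smulRight_apply,
        smul_smul]
      rfl
    rw [h1, map_sum]
    have h2 : ∀ g : G, LinearMap.trace K L (c • (LinearMap.smulRight
        ((Algebra.trace K L).comp ((LinearMap.mulLeft K z).comp
          (MulSemiringAction.toAlgEquiv K L g⁻¹).toLinearMap))
        (g • (dot h.1 y)))) = c * Algebra.trace K L (z * dot h.1 y) := by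
      intro g
      rw [map_smul, LinearMap.trace_smulRight, smul_eq_mul]
      congr 1
      change Algebra.trace K L (z * g⁻¹ • (g • (dot h.1 y))) = _
      rw [inv_smul_smul]
    simp only [h2]
    rw [Finset.sum_const, Finset.card_univ, ← Nat.card_eq_fintype_card, nsmul_eq_mul, ← mul_assoc,
      mul_comm _ c, hc, one_mul]
  rwa [ht2] at ht

end General

/-- The ring of integers `𝔒_F` of a `p`-adic field `F`: the elements of `F` that are roots of monic
polynomials with coefficients in `ℤ_p`. -/
noncomputable def ringOfIntegers (p : ℕ) [Fact p.Prime] (F : Type*) [Field F] [Algebra ℚ_[p] F] :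
    Subring F where
  carrier := {x | ((algebraMap ℚ_[p] F).comp (algebraMap ℤ_[p] ℚ_[p])).IsIntegralElem x}
  zero_mem' := RingHom.isIntegralElem_zero _
  one_mem' := RingHom.isIntegralElem_one _
  add_mem' := fun ha hb => ha.add _ hb
  mul_mem' := fun ha hb => ha.mul _ hb
  neg_mem' := fun ha => ha.neg _

section Padic

variable (p : ℕ) [Fact p.Prime] (K L : Type*) [Field K] [Field L] [Algebra ℚ_[p] K] [Algebra ℚ_[p] L] [Algebra K L]

/-- algebra structure -/
noncomputable abbrev alg (F : Type*) [Field F] [Algebra ℚ_[p] F] : Algebra ℤ_[p] F :=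
  ((algebraMap ℚ_[p] F).comp (algebraMap ℤ_[p] ℚ_[p])).toAlgebra

theorem dedekind [FiniteDimensional ℚ_[p] K] : IsDedekindDomain (ringOfIntegers p K) ∧ IsFractionRing (ringOfIntegers p K) K := by
  let _ := alg p K
  have : IsScalarTower ℤ_[p] ℚ_[p] K := IsScalarTower.of_algebraMap_eq' rfl
  constructor
  · exact integralClosure.isDedekindDomain ℤ_[p] ℚ_[p] K
  · exact integralClosure.isFractionRing_of_finite_extension ℚ_[p] K

theorem mem_iff [IsScalarTower ℚ_[p] K L] (x : L) :
    x ∈ ringOfIntegers p L ↔ IsIntegral (ringOfIntegers p K) x := by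
  let _ := alg p K
  let _ := alg p L
  let i : ℤ_[p] →+* ringOfIntegers p K :=
    RingHom.codRestrict ((algebraMap ℚ_[p] K).comp (algebraMap ℤ_[p] ℚ_[p])) _
      (fun x => RingHom.isIntegralElem_map _)
  let _ : Algebra ℤ_[p] (ringOfIntegers p K) := i.toAlgebra
  have h0 : x ∈ ringOfIntegers p L ↔ IsIntegral ℤ_[p] x := Iff.rfl
  rw [h0]
  have : IsScalarTower ℤ_[p] (ringOfIntegers p K) K := by
    refine IsScalarTower.of_algebraMap_eq fun x => rfl
  have : IsScalarTower ℤ_[p] (ringOfIntegers p K) L := by
    refine IsScalarTower.of_algebraMap_eq fun x => ?_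
    change algebraMap ℚ_[p] L (x : ℚ_[p]) = algebraMap K L (algebraMap ℚ_[p] K (x : ℚ_[p]))
    rw [← IsScalarTower.algebraMap_apply]
  constructor
  · intro h
    exact h.tower_top
  · intro h
    have : Algebra.IsIntegral ℤ_[p] (ringOfIntegers p K) := by
      constructor
      intro y
      have h1 : IsIntegral ℤ_[p] (y : K) := y.2
      exact (isIntegral_algebraMap_iff (A := ringOfIntegers p K) (B := K)
        (Subring.subtype_injective _)).1 h1
    exact isIntegral_trans (A := ringOfIntegers p K) x h

end Padic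


/-- An `R`-order of a `K`-algebra `A` (`R` is a subring of the field `K`): a subring `Λ` of `A` which
contains `R`, is generated by finitely many elements as an `R`-module and has the property that every
element of `A` has a nonzero multiple `r x` in `Λ`, `r ∈ R`. -/
structure IsOrder {K A : Type*} [Field K] [Ring A] [Algebra K A] (R : Subring K) (Λ : Subring A) :
    Prop where
  contains : ∀ r ∈ R, algebraMap K A r ∈ Λ
  fg : ∃ s : Finset A, ∀ x, x ∈ Λ ↔ ∃ c : A → K, (∀ a, c a ∈ R) ∧ x = ∑ a ∈ s, c a • a
  full : ∀ x : A, ∃ r ∈ R, r ≠ 0 ∧ r • x ∈ Λ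

/-- A maximal `R`-order: an `R`-order which is not properly contained in any `R`-order. -/
def IsMaximalOrder {K A : Type*} [Field K] [Ring A] [Algebra K A] (R : Subring K) (Λ : Subring A) :
    Prop :=
  IsOrder R Λ ∧ ∀ Λ' : Subring A, IsOrder R Λ' → Λ ≤ Λ' → Λ' = Λ

theorem mem_span_iff {K A : Type*} [Field K] [Ring A] [Algebra K A] (R : Subring K) (s : Finset A)
    (x : A) : x ∈ Submodule.span R (s : Set A) ↔
      ∃ c : A → K, (∀ a, c a ∈ R) ∧ x = ∑ a ∈ s, c a • a := by
  constructor
  · intro hx
    obtain ⟨f, _, hf⟩ := Submodule.mem_span_finset.1 hx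
    exact ⟨fun a => (f a : K), fun a => (f a).2, hf.symm⟩
  · rintro ⟨c, hc, rfl⟩
    refine Submodule.sum_mem _ fun a ha => ?_
    exact Submodule.smul_mem _ (⟨c a, hc a⟩ : R) (Submodule.subset_span ha)

theorem IsOrder.isIntegral {K A : Type*} [Field K] [Ring A] [Algebra K A] {R : Subring K}
    {Λ : Subring A} (h : IsOrder R Λ) : ∀ x ∈ Λ, IsIntegral R x := by
  let Λ' : Subalgebra R A :=
    { Λ with algebraMap_mem' := fun r => h.contains r r.2 }
  obtain ⟨s, hs⟩ := h.fg
  have h1 : Subalgebra.toSubmodule Λ' = Submodule.span R (s : Set A) := by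
    ext x
    change x ∈ Λ ↔ _
    rw [hs, mem_span_iff]
  have h2 : Module.Finite R Λ' := Module.Finite.iff_fg.2 ⟨s, h1.symm⟩
  intro x hx
  have h3 : IsIntegral R (⟨x, hx⟩ : Λ') := Algebra.IsIntegral.isIntegral _
  exact h3.map Λ'.val

theorem isOrder_of_subalgebra {K A : Type*} [Field K] [Ring A] [Algebra K A] {R : Subring K}
    (Λ : Subalgebra R A) (h1 : (Subalgebra.toSubmodule Λ).FG)
    (h2 : ∀ x : A, ∃ r ∈ R, r ≠ 0 ∧ r • x ∈ Λ) : IsOrder R Λ.toSubring := by
  refine ⟨fun r hr => Λ.algebraMap_mem ⟨r, hr⟩, ?_, h2⟩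
  obtain ⟨s, hs⟩ := h1
  refine ⟨s, fun x => ?_⟩
  rw [← mem_span_iff, hs]
  rfl

section Padic

variable (p : ℕ) [Fact p.Prime] (K G L : Type*) [Field K] [Group G] [Field L]
  [Algebra ℚ_[p] K] [Algebra ℚ_[p] L] [Algebra K L] [IsScalarTower ℚ_[p] K L]
  [MulSemiringAction G L] [IsGaloisGroup G K L]

variable {G} in
lemma zero_mem_aux (x : L) : dot (0 : MonoidAlgebra L (N G)) x ∈ ringOfIntegers p L := by
  rw [dot, coeff_zero, Finsupp.sum_zero_index]
  exact zero_mem _

variable [Finite G]

omit [Algebra ℚ_[p] K] [IsScalarTower ℚ_[p] K L] in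
lemma mul_mem_aux {a b : H0 K G L} (ha : ∀ x ∈ ringOfIntegers p L, dot a.1 x ∈ ringOfIntegers p L)
    (hb : ∀ x ∈ ringOfIntegers p L, dot b.1 x ∈ ringOfIntegers p L) (x : L)
    (hx : x ∈ ringOfIntegers p L) : dot (a * b).1 x ∈ ringOfIntegers p L := by
  have := Fintype.ofFinite G
  change dot (a.1 * b.1) x ∈ _
  rw [dot_mul a.1 b.2]
  exact ha _ (hb x hx)

omit [Algebra ℚ_[p] K] [IsScalarTower ℚ_[p] K L] in
lemma add_mem_aux {a b : H0 K G L} (ha : ∀ x ∈ ringOfIntegers p L, dot a.1 x ∈ ringOfIntegers p L)
    (hb : ∀ x ∈ ringOfIntegers p L, dot b.1 x ∈ ringOfIntegers p L) (x : L)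
    (hx : x ∈ ringOfIntegers p L) : dot (a + b).1 x ∈ ringOfIntegers p L := by
  have := Fintype.ofFinite G
  change dot (a.1 + b.1) x ∈ _
  rw [dot_add_left]
  exact add_mem (ha x hx) (hb x hx)

omit [Algebra ℚ_[p] K] [IsScalarTower ℚ_[p] K L] in
lemma one_mem_aux (x : L) (hx : x ∈ ringOfIntegers p L) :
    dot (1 : H0 K G L).1 x ∈ ringOfIntegers p L := by
  have := Fintype.ofFinite G
  change dot 1 x ∈ _
  rwa [dot_one]

omit [Algebra ℚ_[p] K] [IsScalarTower ℚ_[p] K L] in
lemma neg_mem_aux {a : H0 K G L} (ha : ∀ x ∈ ringOfIntegers p L, dot a.1 x ∈ ringOfIntegers p L)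
    (x : L) (hx : x ∈ ringOfIntegers p L) : dot (-a).1 x ∈ ringOfIntegers p L := by
  have := Fintype.ofFinite G
  have h1 : dot (-a).1 x = - dot a.1 x := by
    rw [eq_neg_iff_add_eq_zero, ← dot_add_left]
    have h2 : (-a).1 + a.1 = 0 := neg_add_cancel a.1
    rw [h2, dot_zero_left]
  rw [h1]
  exact neg_mem (ha x hx)

/-- The associated order, as a subring of `H0`. -/
noncomputable def assoc0 : Subring (H0 K G L) where
  carrier := {h | ∀ x ∈ ringOfIntegers p L, dot h.1 x ∈ ringOfIntegers p L}
  mul_mem' := fun ha hb => mul_mem_aux p K G L ha hb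
  one_mem' := one_mem_aux p K G L
  add_mem' := fun ha hb => add_mem_aux p K G L ha hb
  zero_mem' := fun x _ => zero_mem_aux p L x
  neg_mem' := fun ha => neg_mem_aux p K G L ha

theorem result0 [FiniteDimensional ℚ_[p] K] [FiniteDimensional ℚ_[p] L]
    (hp : ¬ p ∣ Module.finrank K L) :
    IsMaximalOrder (ringOfIntegers p K) (assoc0 p K G L) := by
  obtain ⟨h1, h2⟩ := dedekind p K
  have := Fintype.ofFinite G
  have hfd : FiniteDimensional K L := IsGaloisGroup.finiteDimensional G K L
  have hm : ∀ h : H0 K G L, h ∈ assoc0 p K G L ↔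
      ∀ x : L, IsIntegral (ringOfIntegers p K) x → IsIntegral (ringOfIntegers p K) (dot h.1 x) := by
    intro h
    constructor
    · intro hh x hx
      rw [← mem_iff p K L] at hx ⊢
      exact hh x hx
    · intro hh x hx
      rw [mem_iff p K L] at hx ⊢
      exact hh x hx
  have hn : ∃ c ∈ ringOfIntegers p K, c * (Nat.card G : K) = 1 := by
    obtain ⟨u, hu⟩ : IsUnit ((Module.finrank K L : ℕ) : ℤ_[p]) :=
      PadicInt.isUnit_iff.2 (PadicInt.norm_natCast_eq_one_iff.2
        ((Nat.Prime.coprime_iff_not_dvd Fact.out).2 hp))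
    refine ⟨(algebraMap ℚ_[p] K) (algebraMap ℤ_[p] ℚ_[p] (u⁻¹ : ℤ_[p]ˣ)),
      RingHom.isIntegralElem_map _, ?_⟩
    have h4 : (Nat.card G : K) =
        (algebraMap ℚ_[p] K) (algebraMap ℤ_[p] ℚ_[p] (u : ℤ_[p])) := by
      rw [hu, IsGaloisGroup.card_eq_finrank G K L, map_natCast, map_natCast]
    rw [h4, ← map_mul, ← map_mul, Units.inv_mul, map_one, map_one]
  refine ⟨?_, fun Λ' hΛ' hle => le_antisymm (fun h hh => ?_) hle⟩
  · let Λ : Subalgebra (ringOfIntegers p K) (H0 K G L) :=
      { assoc0 p K G L with
        algebraMap_mem' := by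
          intro r x hx
          have h1 : dot ((algebraMap (ringOfIntegers p K) (H0 K G L) r)).1 x = r • x := by
            have h2 : (algebraMap (ringOfIntegers p K) (H0 K G L) r).1 =
                (r : K) • (1 : MonoidAlgebra L (N G)) := by
              rw [Algebra.algebraMap_eq_smul_one]
              rfl
            rw [h2, dot_smul_left, dot_one]
            rfl
          rw [h1]
          rw [mem_iff p K L] at hx ⊢
          exact hx.smul r }
    obtain ⟨h3, h4⟩ := isOrder_of (ringOfIntegers p K) Λ hm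
    exact isOrder_of_subalgebra Λ h3 h4
  · refine (hm h).2 ?_
    exact general (ringOfIntegers p K) hn Λ' (fun h hh => hle ((hm h).2 hh)) hΛ'.isIntegral h hh

end Padic

section Statement

variable (p : ℕ) [Fact p.Prime] (K G L : Type*) [Field K] [Group G] [Field L]

/-- The group algebra `L[N]`. -/
def LN : Type _ := MonoidAlgebra L (N G)

noncomputable instance : Ring (LN G L) := MonoidAlgebra.ring

noncomputable instance [Algebra K L] : Algebra K (LN G L) := MonoidAlgebra.algebra

variable [Algebra K L] [MulSemiringAction G L] [IsGaloisGroup G K L]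

/-- The `K`-algebra `H_λ = L[N]^G`: the elements of `L[N]` fixed by the action of `G`. -/
noncomputable def H : Subalgebra K (LN G L) where
  carrier := {a | ∀ g : G, act g a = a}
  mul_mem' := fun ha hb => (H0 K G L).mul_mem ha hb
  add_mem' := fun ha hb => (H0 K G L).add_mem ha hb
  algebraMap_mem' := (H0 K G L).algebraMap_mem

/-- `H_λ` as a type. -/
def Hopf : Type _ := H K G L

noncomputable instance : Ring (Hopf K G L) := (H K G L).toRing

noncomputable instance : Algebra K (Hopf K G L) := (H K G L).algebra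

variable [Algebra ℚ_[p] L] [Finite G]

variable {K G L} in
omit [Finite G] in
/-- `h · 𝔒_L ⊆ 𝔒_L`. -/
def Preserves (h : Hopf K G L) : Prop :=
  ∀ x ∈ ringOfIntegers p L, dot h.1 x ∈ ringOfIntegers p L

lemma preserves_mul {a b : Hopf K G L} (ha : Preserves p a) (hb : Preserves p b) :
    Preserves p (a * b) := mul_mem_aux p K G L ha hb

lemma preserves_add {a b : Hopf K G L} (ha : Preserves p a) (hb : Preserves p b) :
    Preserves p (a + b) := add_mem_aux p K G L ha hb

lemma preserves_one : Preserves p (1 : Hopf K G L) := one_mem_aux p K G L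

omit [Finite G] in
lemma preserves_zero : Preserves p (0 : Hopf K G L) := fun x _ => zero_mem_aux p L x

lemma preserves_neg {a : Hopf K G L} (ha : Preserves p a) : Preserves p (-a) :=
  neg_mem_aux p K G L ha

/-- The associated order `𝔄_λ = {h ∈ H_λ : h · 𝔒_L ⊆ 𝔒_L}` of `𝔒_L` in `H_λ`. -/
noncomputable def assocOrder : Subring (Hopf K G L) where
  carrier := {h | Preserves p h}
  mul_mem' := preserves_mul p K G L
  one_mem' := preserves_one p K G L
  add_mem' := preserves_add p K G L
  zero_mem' := preserves_zero p K G L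
  neg_mem' := preserves_neg p K G L

end Statement

/-- **Theorem.**  If `L/K` is a Galois extension of `p`-adic fields with group `G` and `p ∤ [L : K]`,
then the associated order `𝔄_λ` is a maximal `𝔒_K`-order of `H_λ`. -/
theorem result (p : ℕ) [Fact p.Prime] (K G L : Type*) [Field K] [Field L]
    [Algebra ℚ_[p] K] [Algebra ℚ_[p] L] [Algebra K L] [IsScalarTower ℚ_[p] K L]
    [FiniteDimensional ℚ_[p] K] [FiniteDimensional ℚ_[p] L]
    [Group G] [Finite G] [MulSemiringAction G L] [IsGaloisGroup G K L]
    (hp : ¬ p ∣ Module.finrank K L) :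
    IsMaximalOrder (ringOfIntegers p K) (assocOrder p K G L) :=
  result0 p K G L hp

end Pool.Agent.Results.MP_46c6cb_nt.AssociatedOrderMaximal
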